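import Mathlib

/-!
A benzenoid system with eight hexagons in which one hexagon has ring bond order `3`.

The hexagonal lattice is drawn as a brick wall on `ℤ × ℤ`.
-/

namespace Pool.Agent.Results.MP_64a46a_co.Exists

open SimpleGraph

/-- Vertices of the hexagonal lattice in brick wall coordinates. -/
abbrev V := ℤ × ℤ

/-- The hexagonal lattice as a brick wall: all horizontal unit segments, and the vertical unit
segments from `(x, y)` to `(x, y + 1)` with `x + y` even. -/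
def hexLattice : SimpleGraph V where
  Adj u v := (u.2 = v.2 ∧ (v.1 = u.1 + 1 ∨ u.1 = v.1 + 1)) ∨
    (u.1 = v.1 ∧ ((v.2 = u.2 + 1 ∧ (u.1 + u.2) % 2 = 0) ∨ (u.2 = v.2 + 1 ∧ (v.1 + v.2) % 2 = 0)))
  symm := ⟨fun u v h => by omega⟩
  loopless := ⟨fun u h => by omega⟩

instance : DecidableRel hexLattice.Adj := fun u v => by
  unfold hexLattice
  infer_instance

/-- The faces (hexagons) of the lattice are the bricks `[x, x + 2] × [y, y + 1]` with `x + y`
even; such a face is named by its lower left corner `(x, y)`. -/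
def IsFace (f : V) : Prop := (f.1 + f.2) % 2 = 0

/-- The six vertices of the face with lower left corner `f`. -/
def hexVerts (f : V) : Finset V :=
  {(f.1, f.2), (f.1 + 1, f.2), (f.1 + 2, f.2), (f.1 + 2, f.2 + 1), (f.1 + 1, f.2 + 1),
    (f.1, f.2 + 1)}

/-- The six edges of the face with lower left corner `f`. -/
def hexEdges (f : V) : Finset (Sym2 V) :=
  {s((f.1, f.2), (f.1 + 1, f.2)), s((f.1 + 1, f.2), (f.1 + 2, f.2)),
    s((f.1 + 2, f.2), (f.1 + 2, f.2 + 1)), s((f.1 + 1, f.2 + 1), (f.1 + 2, f.2 + 1)),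
    s((f.1, f.2 + 1), (f.1 + 1, f.2 + 1)), s((f.1, f.2), (f.1, f.2 + 1))}

variable {v : V}

/-- One can pass from the face `f` to the face `g` across a common edge not on `C`. -/
def Cross (C : hexLattice.Walk v v) (f g : V) : Prop :=
  IsFace f ∧ IsFace g ∧ ∃ e ∈ hexEdges f, e ∈ hexEdges g ∧ e ∉ C.edges

/-- The face `f` lies inside `C`: only finitely many faces can be reached from `f` without
crossing `C` (it lies in a bounded component of the complement of `C`). -/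
def Inside (C : hexLattice.Walk v v) (f : V) : Prop :=
  IsFace f ∧ {g | Relation.ReflTransGen (Cross C) f g}.Finite

/-- The hexagons (bounded faces) of the benzenoid system bounded by `C`. -/
def hexagons (C : hexLattice.Walk v v) : Set V := {f | Inside C f}

/-- The vertices of the benzenoid system: those on `C` and those inside `C`. -/
def vertsB (C : hexLattice.Walk v v) : Set V :=
  {w | w ∈ C.support ∨ ∃ f ∈ hexagons C, w ∈ hexVerts f}

/-- The edges of the benzenoid system: those on `C` and those inside `C`. -/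
def edgesB (C : hexLattice.Walk v v) : Set (Sym2 V) :=
  {e | e ∈ C.edges ∨ ∃ f ∈ hexagons C, e ∈ hexEdges f}

/-- Kekule structures: perfect matchings of the benzenoid system, as sets of edges. -/
def kekule (C : hexLattice.Walk v v) : Set (Set (Sym2 V)) :=
  {M | M ⊆ edgesB C ∧ ∀ w ∈ vertsB C, ∃! e, e ∈ M ∧ w ∈ e}

/-- The number of Kekule structures. -/
noncomputable def K (C : hexLattice.Walk v v) : ℕ := (kekule C).ncard

/-- The Pauling bond order of an edge. -/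
noncomputable def pauling (C : hexLattice.Walk v v) (e : Sym2 V) : ℚ :=
  (({M | M ∈ kekule C ∧ e ∈ M}.ncard : ℕ) : ℚ) / (K C : ℚ)

/-- The ring bond order of a hexagon. -/
noncomputable def RBO (C : hexLattice.Walk v v) (h : V) : ℚ := ∑ e ∈ hexEdges h, pauling C e

/-! ### The example -/

/-- The boundary cycle. -/
def C0 : hexLattice.Walk (1, 1) (1, 1) :=
  Walk.cons (show hexLattice.Adj (1, 1) (1, 2) by decide) <|
  Walk.cons (show hexLattice.Adj (1, 2) (2, 2) by decide) <|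
  Walk.cons (show hexLattice.Adj (2, 2) (2, 3) by decide) <|
  Walk.cons (show hexLattice.Adj (2, 3) (3, 3) by decide) <|
  Walk.cons (show hexLattice.Adj (3, 3) (4, 3) by decide) <|
  Walk.cons (show hexLattice.Adj (4, 3) (4, 2) by decide) <|
  Walk.cons (show hexLattice.Adj (4, 2) (5, 2) by decide) <|
  Walk.cons (show hexLattice.Adj (5, 2) (6, 2) by decide) <|
  Walk.cons (show hexLattice.Adj (6, 2) (6, 3) by decide) <|
  Walk.cons (show hexLattice.Adj (6, 3) (5, 3) by decide) <|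
  Walk.cons (show hexLattice.Adj (5, 3) (5, 4) by decide) <|
  Walk.cons (show hexLattice.Adj (5, 4) (6, 4) by decide) <|
  Walk.cons (show hexLattice.Adj (6, 4) (7, 4) by decide) <|
  Walk.cons (show hexLattice.Adj (7, 4) (8, 4) by decide) <|
  Walk.cons (show hexLattice.Adj (8, 4) (9, 4) by decide) <|
  Walk.cons (show hexLattice.Adj (9, 4) (9, 3) by decide) <|
  Walk.cons (show hexLattice.Adj (9, 3) (8, 3) by decide) <|
  Walk.cons (show hexLattice.Adj (8, 3) (8, 2) by decide) <|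
  Walk.cons (show hexLattice.Adj (8, 2) (7, 2) by decide) <|
  Walk.cons (show hexLattice.Adj (7, 2) (7, 1) by decide) <|
  Walk.cons (show hexLattice.Adj (7, 1) (8, 1) by decide) <|
  Walk.cons (show hexLattice.Adj (8, 1) (8, 0) by decide) <|
  Walk.cons (show hexLattice.Adj (8, 0) (7, 0) by decide) <|
  Walk.cons (show hexLattice.Adj (7, 0) (6, 0) by decide) <|
  Walk.cons (show hexLattice.Adj (6, 0) (6, 1) by decide) <|
  Walk.cons (show hexLattice.Adj (6, 1) (5, 1) by decide) <|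
  Walk.cons (show hexLattice.Adj (5, 1) (4, 1) by decide) <|
  Walk.cons (show hexLattice.Adj (4, 1) (3, 1) by decide) <|
  Walk.cons (show hexLattice.Adj (3, 1) (2, 1) by decide) <|
  Walk.cons (show hexLattice.Adj (2, 1) (1, 1) by decide) <|
  Walk.nil

def SF : List V := [(1, 1), (2, 2), (3, 1), (5, 1), (5, 3), (6, 0), (6, 2), (7, 3)]

def CE : List (Sym2 V) :=
  [s((1, 1), (1, 2)), s((1, 2), (2, 2)), s((2, 2), (2, 3)), s((2, 3), (3, 3)),
    s((3, 3), (4, 3)), s((4, 3), (4, 2)), s((4, 2), (5, 2)), s((5, 2), (6, 2)),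
    s((6, 2), (6, 3)), s((6, 3), (5, 3)), s((5, 3), (5, 4)), s((5, 4), (6, 4)),
    s((6, 4), (7, 4)), s((7, 4), (8, 4)), s((8, 4), (9, 4)), s((9, 4), (9, 3)),
    s((9, 3), (8, 3)), s((8, 3), (8, 2)), s((8, 2), (7, 2)), s((7, 2), (7, 1)),
    s((7, 1), (8, 1)), s((8, 1), (8, 0)), s((8, 0), (7, 0)), s((7, 0), (6, 0)),
    s((6, 0), (6, 1)), s((6, 1), (5, 1)), s((5, 1), (4, 1)), s((4, 1), (3, 1)),
    s((3, 1), (2, 1)), s((2, 1), (1, 1))]

def EB : List (Sym2 V) :=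
  [s((1, 1), (1, 2)), s((1, 1), (2, 1)), s((1, 2), (2, 2)), s((2, 1), (3, 1)),
    s((2, 2), (2, 3)), s((2, 2), (3, 2)), s((2, 3), (3, 3)), s((3, 1), (3, 2)),
    s((3, 1), (4, 1)), s((3, 2), (4, 2)), s((3, 3), (4, 3)), s((4, 1), (5, 1)),
    s((4, 2), (4, 3)), s((4, 2), (5, 2)), s((5, 1), (5, 2)), s((5, 1), (6, 1)),
    s((5, 2), (6, 2)), s((5, 3), (5, 4)), s((5, 3), (6, 3)), s((5, 4), (6, 4)),
    s((6, 0), (6, 1)), s((6, 0), (7, 0)), s((6, 1), (7, 1)), s((6, 2), (6, 3)),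
    s((6, 2), (7, 2)), s((6, 3), (7, 3)), s((6, 4), (7, 4)), s((7, 0), (8, 0)),
    s((7, 1), (7, 2)), s((7, 1), (8, 1)), s((7, 2), (8, 2)), s((7, 3), (7, 4)),
    s((7, 3), (8, 3)), s((7, 4), (8, 4)), s((8, 0), (8, 1)), s((8, 2), (8, 3)),
    s((8, 3), (9, 3)), s((8, 4), (9, 4)), s((9, 3), (9, 4))]

def VB : List V :=
  [(1, 1), (1, 2), (2, 1), (2, 2), (2, 3), (3, 1), (3, 2), (3, 3), (4, 1), (4, 2), (4, 3),
    (5, 1), (5, 2), (5, 3), (5, 4), (6, 0), (6, 1), (6, 2), (6, 3), (6, 4), (7, 0), (7, 1),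
    (7, 2), (7, 3), (7, 4), (8, 0), (8, 1), (8, 2), (8, 3), (8, 4), (9, 3), (9, 4)]

def PM : List (Sym2 V) :=
  [s((1, 1), (1, 2)), s((2, 1), (3, 1)), s((2, 2), (2, 3)), s((3, 2), (4, 2)),
    s((3, 3), (4, 3)), s((4, 1), (5, 1)), s((5, 2), (6, 2)), s((5, 3), (5, 4)),
    s((6, 0), (6, 1)), s((6, 3), (7, 3)), s((6, 4), (7, 4)), s((7, 0), (8, 0)),
    s((7, 1), (8, 1)), s((7, 2), (8, 2)), s((8, 3), (9, 3)), s((8, 4), (9, 4))]

lemma C0_edges : C0.edges = CE := rfl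

lemma C0_cycle : C0.IsCycle := by
  rw [Walk.isCycle_def, Walk.isTrail_def]
  refine ⟨?_, ?_, ?_⟩
  · rw [C0_edges]; decide +kernel
  · intro h
    have := congrArg Walk.length h
    revert this
    decide +kernel
  · decide +kernel

def nbrs (f : V) : List V :=
  [f, (f.1 + 2, f.2), (f.1 - 2, f.2), (f.1 + 1, f.2 + 1), (f.1 - 1, f.2 + 1), (f.1 + 1, f.2 - 1),
    (f.1 - 1, f.2 - 1)]

lemma share {f g : V} (hf : IsFace f) (hg : IsFace g) {e : Sym2 V} (h1 : e ∈ hexEdges f)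
    (h2 : e ∈ hexEdges g) : g ∈ nbrs f := by
  obtain ⟨x, y⟩ := f
  obtain ⟨a, b⟩ := g
  simp only [IsFace] at hf hg
  simp only [hexEdges, Finset.mem_insert, Finset.mem_singleton] at h1 h2
  simp only [nbrs, List.mem_cons, Prod.mk.injEq, List.not_mem_nil, or_false]
  rcases h1 with rfl | rfl | rfl | rfl | rfl | rfl <;>
    rcases h2 with h2 | h2 | h2 | h2 | h2 | h2 <;>
    simp only [Sym2.eq_iff, Prod.mk.injEq] at h2 <;>
    rcases h2 with ⟨⟨h2, h3⟩, h4, h5⟩ | ⟨⟨h2, h3⟩, h4, h5⟩ <;> omega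

lemma closed_SF : ∀ f ∈ SF, ∀ g ∈ nbrs f, ∀ e ∈ hexEdges f, e ∈ hexEdges g → e ∉ CE →
    g ∈ SF := by decide +kernel

lemma horiz {a b : ℤ} (h : s((a, b), (a + 1, b)) ∈ CE) :
    (b = 0 ∧ (a = 6 ∨ a = 7)) ∨ (b = 1 ∧ 1 ≤ a ∧ a ≤ 7) ∨ b = 2 ∨
      (b = 3 ∧ (a = 2 ∨ a = 3 ∨ a = 5 ∨ a = 8)) ∨ (b = 4 ∧ 5 ≤ a ∧ a ≤ 8) := by
  simp only [CE, List.mem_cons, List.not_mem_nil, or_false, Sym2.eq_iff, Prod.mk.injEq] at h
  omega

lemma mem_SF {a b : ℤ} : (a, b) ∈ SF ↔ (a = 1 ∧ b = 1) ∨ (a = 2 ∧ b = 2) ∨ (a = 3 ∧ b = 1) ∨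
    (a = 5 ∧ b = 1) ∨ (a = 5 ∧ b = 3) ∨ (a = 6 ∧ b = 0) ∨ (a = 6 ∧ b = 2) ∨ (a = 7 ∧ b = 3) := by
  simp only [SF, List.mem_cons, List.not_mem_nil, or_false, Prod.mk.injEq]

lemma horiz_mem {x y c d : ℤ} (h1 : (c = x ∨ c = x + 1) ∧ (d = y ∨ d = y + 1)) :
    s((c, d), (c + 1, d)) ∈ hexEdges (x, y) := by
  have e2 : x + 1 + 1 = x + 2 := by ring
  obtain ⟨rfl | rfl, rfl | rfl⟩ := h1 <;> simp [hexEdges, e2]

lemma cross_of {x y a b c d : ℤ} (hf : (x + y) % 2 = 0) (hg : (a + b) % 2 = 0)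
    (h1 : (c = x ∨ c = x + 1) ∧ (d = y ∨ d = y + 1))
    (h2 : (c = a ∨ c = a + 1) ∧ (d = b ∨ d = b + 1))
    (h3 : s((c, d), (c + 1, d)) ∉ CE) : Cross C0 (x, y) (a, b) := by
  exact ⟨hf, hg, s((c, d), (c + 1, d)), horiz_mem h1, horiz_mem h2, by rw [C0_edges]; exact h3⟩

lemma escape {f : V} (hf : IsFace f) (hn : f ∉ SF) :
    ∃ g, g ∉ SF ∧ Cross C0 f g ∧ |2 * f.2 - 3| < |2 * g.2 - 3| := by
  obtain ⟨x, y⟩ := f
  simp only [IsFace] at hf
  rw [mem_SF] at hn
  by_cases h1 : y ≤ 0 ∨ (y = 1 ∧ x ≤ 0)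
  · refine ⟨(x - 1, y - 1), by rw [mem_SF]; omega,
      cross_of (c := x) (d := y) hf (by omega) (by omega) (by omega)
        (fun h => by have := horiz h; omega), ?_⟩
    simp only
    rw [abs_of_neg (by omega), abs_of_neg (by omega)]; omega
  by_cases h2 : y = 1
  · refine ⟨(x + 1, y - 1), by rw [mem_SF]; omega,
      cross_of (c := x + 1) (d := y) hf (by omega) (by omega) (by omega)
        (fun h => by have := horiz h; omega), ?_⟩
    simp only
    rw [abs_of_neg (by omega), abs_of_neg (by omega)]; omega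
  by_cases h3 : y = 2 ∧ x = 8
  · refine ⟨(x + 1, y + 1), by rw [mem_SF]; omega,
      cross_of (c := x + 1) (d := y + 1) hf (by omega) (by omega) (by omega)
        (fun h => by have := horiz h; omega), ?_⟩
    simp only
    rw [abs_of_pos (by omega), abs_of_pos (by omega)]; omega
  · refine ⟨(x - 1, y + 1), by rw [mem_SF]; omega,
      cross_of (c := x) (d := y + 1) hf (by omega) (by omega) (by omega)
        (fun h => by have := horiz h; omega), ?_⟩
    simp only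
    rw [abs_of_pos (by omega), abs_of_pos (by omega)]; omega

lemma inside_iff (f : V) : Inside C0 f ↔ f ∈ SF := by
  constructor
  · rintro ⟨hf, hfin⟩
    by_contra hn
    have hfin' : {g | Relation.ReflTransGen (Cross C0) f g ∧ IsFace g ∧ g ∉ SF}.Finite :=
      hfin.subset fun g hg => hg.1
    obtain ⟨g, ⟨hg1, hg2, hg3⟩, hmax⟩ := Set.exists_max_image _ (fun g : V => |2 * g.2 - 3|) hfin'
      ⟨f, Relation.ReflTransGen.refl, hf, hn⟩
    obtain ⟨g', h1, h2, h3⟩ := escape hg2 hg3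
    exact absurd (hmax g' ⟨hg1.tail h2, h2.2.1, h1⟩) (not_le.2 h3)
  · intro hf
    refine ⟨?_, (List.finite_toSet SF).subset ?_⟩
    · revert f
      unfold IsFace
      decide +kernel
    · intro g hg
      induction hg with
      | refl => exact hf
      | tail _ h ih =>
        obtain ⟨h1, h2, e, he1, he2, he3⟩ := h
        exact closed_SF _ ih _ (share h1 h2 he1 he2) e he1 he2 (by rwa [C0_edges] at he3)

lemma mem_hexagons (f : V) : f ∈ hexagons C0 ↔ f ∈ SF := inside_iff f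

lemma mem_edgesB (e : Sym2 V) : e ∈ edgesB C0 ↔ e ∈ EB := by
  have h1 : ∀ e ∈ CE, e ∈ EB := by decide +kernel
  have h2 : ∀ f ∈ SF, ∀ e ∈ hexEdges f, e ∈ EB := by decide +kernel
  have h3 : ∀ e ∈ EB, ∃ f ∈ SF, e ∈ hexEdges f := by decide +kernel
  constructor
  · rintro (h | ⟨f, hf, h⟩)
    · exact h1 e (by rwa [C0_edges] at h)
    · exact h2 f ((mem_hexagons f).1 hf) e h
  · intro h
    obtain ⟨f, hf, h⟩ := h3 e h
    exact Or.inr ⟨f, (mem_hexagons f).2 hf, h⟩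

lemma mem_vertsB (w : V) : w ∈ vertsB C0 ↔ w ∈ VB := by
  have h1 : ∀ w ∈ C0.support, w ∈ VB := by decide +kernel
  have h2 : ∀ f ∈ SF, ∀ w ∈ hexVerts f, w ∈ VB := by decide +kernel
  have h3 : ∀ w ∈ VB, ∃ f ∈ SF, w ∈ hexVerts f := by decide +kernel
  constructor
  · rintro (h | ⟨f, hf, h⟩)
    · exact h1 w h
    · exact h2 f ((mem_hexagons f).1 hf) w h
  · intro h
    obtain ⟨f, hf, h⟩ := h3 w h
    exact Or.inr ⟨f, (mem_hexagons f).2 hf, h⟩

open Classical in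
/-- Indicator of an edge in a matching. -/
noncomputable def ind (M : Set (Sym2 V)) (e : Sym2 V) : ℕ := if e ∈ M then 1 else 0

lemma deg3 {M : Set (Sym2 V)} (hM : M ∈ kekule C0) (w : V) (a b c : Sym2 V)
    (h : w ∈ VB ∧ w ∈ a ∧ w ∈ b ∧ w ∈ c ∧ a ≠ b ∧ a ≠ c ∧ b ≠ c ∧
      ∀ e ∈ EB, w ∈ e → e = a ∨ e = b ∨ e = c) : ind M a + ind M b + ind M c = 1 := by
  obtain ⟨hw, ha, hb, hc, hab, hac, hbc, hall⟩ := h
  obtain ⟨e, ⟨he, hwe⟩, hu⟩ := hM.2 w ((mem_vertsB w).2 hw)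
  have key : ∀ d, w ∈ d → (d ∈ M ↔ d = e) := fun d hd =>
    ⟨fun h => hu d ⟨h, hd⟩, fun h => h ▸ he⟩
  unfold ind
  simp only [key a ha, key b hb, key c hc]
  rcases hall e ((mem_edgesB e).1 (hM.1 he)) hwe with rfl | rfl | rfl
  · simp [hab.symm, hac.symm]
  · simp [hab, hbc.symm]
  · simp [hac, hbc]

lemma deg2 {M : Set (Sym2 V)} (hM : M ∈ kekule C0) (w : V) (a b : Sym2 V)
    (h : w ∈ VB ∧ w ∈ a ∧ w ∈ b ∧ a ≠ b ∧
      ∀ e ∈ EB, w ∈ e → e = a ∨ e = b) : ind M a + ind M b = 1 := by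
  obtain ⟨hw, ha, hb, hab, hall⟩ := h
  obtain ⟨e, ⟨he, hwe⟩, hu⟩ := hM.2 w ((mem_vertsB w).2 hw)
  have key : ∀ d, w ∈ d → (d ∈ M ↔ d = e) := fun d hd =>
    ⟨fun h => hu d ⟨h, hd⟩, fun h => h ▸ he⟩
  unfold ind
  simp only [key a ha, key b hb]
  rcases hall e ((mem_edgesB e).1 (hM.1 he)) hwe with rfl | rfl
  · simp [hab.symm]
  · simp [hab]

lemma three {M : Set (Sym2 V)} (hM : M ∈ kekule C0) :
    ∑ e ∈ hexEdges (6, 0), ind M e = 3 := by
  have hE : hexEdges (6, 0) = {s((6, 0), (7, 0)), s((7, 0), (8, 0)), s((8, 0), (8, 1)),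
      s((7, 1), (8, 1)), s((6, 1), (7, 1)), s((6, 0), (6, 1))} := rfl
  rw [hE, Finset.sum_insert (by decide +kernel), Finset.sum_insert (by decide +kernel),
    Finset.sum_insert (by decide +kernel), Finset.sum_insert (by decide +kernel),
    Finset.sum_insert (by decide +kernel), Finset.sum_singleton]
  have h0 := deg2 hM (1, 1) s((1, 1), (1, 2)) s((1, 1), (2, 1)) (by decide +kernel)
  have h1 := deg2 hM (1, 2) s((1, 1), (1, 2)) s((1, 2), (2, 2)) (by decide +kernel)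
  have h2 := deg2 hM (2, 1) s((1, 1), (2, 1)) s((2, 1), (3, 1)) (by decide +kernel)
  have h3 := deg3 hM (2, 2) s((1, 2), (2, 2)) s((2, 2), (2, 3)) s((2, 2), (3, 2)) (by decide +kernel)
  have h4 := deg2 hM (2, 3) s((2, 2), (2, 3)) s((2, 3), (3, 3)) (by decide +kernel)
  have h5 := deg3 hM (3, 1) s((2, 1), (3, 1)) s((3, 1), (3, 2)) s((3, 1), (4, 1)) (by decide +kernel)
  have h6 := deg3 hM (3, 2) s((2, 2), (3, 2)) s((3, 1), (3, 2)) s((3, 2), (4, 2)) (by decide +kernel)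
  have h7 := deg2 hM (3, 3) s((2, 3), (3, 3)) s((3, 3), (4, 3)) (by decide +kernel)
  have h8 := deg2 hM (4, 1) s((3, 1), (4, 1)) s((4, 1), (5, 1)) (by decide +kernel)
  have h9 := deg3 hM (4, 2) s((3, 2), (4, 2)) s((4, 2), (4, 3)) s((4, 2), (5, 2)) (by decide +kernel)
  have h10 := deg2 hM (4, 3) s((3, 3), (4, 3)) s((4, 2), (4, 3)) (by decide +kernel)
  have h11 := deg3 hM (5, 1) s((4, 1), (5, 1)) s((5, 1), (5, 2)) s((5, 1), (6, 1)) (by decide +kernel)
  have h12 := deg3 hM (5, 2) s((4, 2), (5, 2)) s((5, 1), (5, 2)) s((5, 2), (6, 2)) (by decide +kernel)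
  have h13 := deg2 hM (5, 3) s((5, 3), (5, 4)) s((5, 3), (6, 3)) (by decide +kernel)
  have h14 := deg2 hM (5, 4) s((5, 3), (5, 4)) s((5, 4), (6, 4)) (by decide +kernel)
  have h15 := deg2 hM (6, 0) s((6, 0), (6, 1)) s((6, 0), (7, 0)) (by decide +kernel)
  have h16 := deg3 hM (6, 1) s((5, 1), (6, 1)) s((6, 0), (6, 1)) s((6, 1), (7, 1)) (by decide +kernel)
  have h17 := deg3 hM (6, 2) s((5, 2), (6, 2)) s((6, 2), (6, 3)) s((6, 2), (7, 2)) (by decide +kernel)
  have h18 := deg3 hM (6, 3) s((5, 3), (6, 3)) s((6, 2), (6, 3)) s((6, 3), (7, 3)) (by decide +kernel)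
  have h19 := deg2 hM (6, 4) s((5, 4), (6, 4)) s((6, 4), (7, 4)) (by decide +kernel)
  have h20 := deg2 hM (7, 0) s((6, 0), (7, 0)) s((7, 0), (8, 0)) (by decide +kernel)
  have h21 := deg3 hM (7, 1) s((6, 1), (7, 1)) s((7, 1), (7, 2)) s((7, 1), (8, 1)) (by decide +kernel)
  have h22 := deg3 hM (7, 2) s((6, 2), (7, 2)) s((7, 1), (7, 2)) s((7, 2), (8, 2)) (by decide +kernel)
  have h23 := deg3 hM (7, 3) s((6, 3), (7, 3)) s((7, 3), (7, 4)) s((7, 3), (8, 3)) (by decide +kernel)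
  have h24 := deg3 hM (7, 4) s((6, 4), (7, 4)) s((7, 3), (7, 4)) s((7, 4), (8, 4)) (by decide +kernel)
  have h25 := deg2 hM (8, 0) s((7, 0), (8, 0)) s((8, 0), (8, 1)) (by decide +kernel)
  have h26 := deg2 hM (8, 1) s((7, 1), (8, 1)) s((8, 0), (8, 1)) (by decide +kernel)
  have h27 := deg2 hM (8, 2) s((7, 2), (8, 2)) s((8, 2), (8, 3)) (by decide +kernel)
  have h28 := deg3 hM (8, 3) s((7, 3), (8, 3)) s((8, 2), (8, 3)) s((8, 3), (9, 3)) (by decide +kernel)
  have h29 := deg2 hM (8, 4) s((7, 4), (8, 4)) s((8, 4), (9, 4)) (by decide +kernel)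
  have h30 := deg2 hM (9, 3) s((8, 3), (9, 3)) s((9, 3), (9, 4)) (by decide +kernel)
  have h31 := deg2 hM (9, 4) s((8, 4), (9, 4)) s((9, 3), (9, 4)) (by decide +kernel)
  omega

lemma kekule_finite : (kekule C0).Finite := by
  refine ((List.finite_toSet EB).finite_subsets).subset ?_
  intro M hM e he
  exact (mem_edgesB e).1 (hM.1 he)

lemma PM_mem : {e | e ∈ PM} ∈ kekule C0 := by
  have h1 : ∀ e ∈ PM, e ∈ EB := by decide +kernel
  have h2 : ∀ w ∈ VB, ∃ e ∈ PM, w ∈ e ∧ ∀ e' ∈ PM, w ∈ e' → e' = e := by decide +kernel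
  refine ⟨fun e he => (mem_edgesB e).2 (h1 e he), fun w hw => ?_⟩
  obtain ⟨e, he, hwe, hu⟩ := h2 w ((mem_vertsB w).1 hw)
  exact ⟨e, ⟨he, hwe⟩, fun e' he' => hu e' he'.1 he'.2⟩

lemma K_pos : 1 ≤ K C0 := (Set.ncard_pos kekule_finite).2 ⟨_, PM_mem⟩

lemma count_eq (e : Sym2 V) :
    {M | M ∈ kekule C0 ∧ e ∈ M}.ncard = ∑ M ∈ kekule_finite.toFinset, ind M e := by
  classical
  have : {M | M ∈ kekule C0 ∧ e ∈ M} = ↑(kekule_finite.toFinset.filter fun M => e ∈ M) := by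
    ext M; simp
  rw [this, Set.ncard_coe_finset, Finset.card_filter]
  refine Finset.sum_congr rfl fun M _ => ?_
  unfold ind
  congr

/-- There is a benzenoid system (a cycle `C` of the hexagonal lattice with its inside) with
eight hexagons and at least one Kekule structure, one of whose hexagons has ring bond
order `3`. -/
theorem result : ∃ (v : V) (C : hexLattice.Walk v v), C.IsCycle ∧ (hexagons C).ncard = 8 ∧
    (kekule C).Finite ∧ 1 ≤ K C ∧ ∃ h ∈ hexagons C, RBO C h = 3 := by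
  refine ⟨(1, 1), C0, C0_cycle, ?_, kekule_finite, K_pos, (6, 0),
    (mem_hexagons _).2 (by decide +kernel), ?_⟩
  · have : hexagons C0 = ↑SF.toFinset := by
      ext f; rw [mem_hexagons]; simp
    rw [this, Set.ncard_coe_finset]
    decide +kernel
  · have hK : (K C0 : ℚ) ≠ 0 := by
      have := K_pos
      positivity
    unfold RBO pauling
    rw [← Finset.sum_div, div_eq_iff hK, ← Nat.cast_sum]
    simp only [count_eq]
    rw [Finset.sum_comm, Finset.sum_congr rfl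
      (fun M hM => three ((Set.Finite.mem_toFinset kekule_finite).1 hM))]
    rw [Finset.sum_const, smul_eq_mul, K, Set.ncard_eq_toFinset_card _ kekule_finite]
    push_cast
    ring

end Pool.Agent.Results.MP_64a46a_co.Exists
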